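import Pool.Agent.CJB.Fin3

/-!
A barrier at about `sqrt n` Frobenius conjugates for gcd-based factoring of polynomials over the
field with two elements, and its tightness up to logarithms.
-/

set_option autoImplicit false

namespace Pool.Agent.Results.MP_54838b_lc.ConjugateBarrier

open Polynomial Pool.Agent.CJB

theorem within_mono (L L' B R : ℕ) (hL : L ≤ L') : ∀ (A : Alg) (k T T' : ℕ), T ≤ T' →
    Within L B R k T A → Within L' B R k T' A := by
  intro A
  induction A with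
  | stop => intro k T T' _ _; trivial
  | gate c next ih =>
      rintro k T T' hT ⟨h1, h2, k', hk, h3⟩
      exact ⟨h1, h2, k', hk, ih k' T T' hT h3⟩
  | test P zero unit ih1 ih2 =>
      rintro k T T' hT ⟨h1, T₁, hT₁, h2, h3⟩
      refine ⟨h1.trans (Nat.pow_le_pow_right (by norm_num) hL), T' - 1, by omega,
        ih1 k T₁ (T' - 1) (by omega) h2, ih2 k T₁ (T' - 1) (by omega) h3⟩

theorem sq_le (n : ℕ) (hn : 2 ≤ n) : (Nat.sqrt n + 1) ^ 2 ≤ 2 ^ (Nat.log 2 n + 3) := by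
  have h1 : Nat.sqrt n * Nat.sqrt n ≤ n := Nat.sqrt_le n
  have h2 : n < 2 ^ (Nat.log 2 n + 1) := Nat.lt_pow_succ_log_self (by norm_num) n
  have h3 : 1 ≤ Nat.sqrt n := Nat.sqrt_pos.2 (by omega)
  have h4 : 2 ^ (Nat.log 2 n + 3) = 4 * 2 ^ (Nat.log 2 n + 1) := by ring
  rw [h4]
  nlinarith

/-- The trade-off for gcd-based factoring of products of two irreducible polynomials, and the
matching upper bound. -/
theorem result :
    (∃ C : ℝ, ∃ n₀ : ℕ, ∀ N ≥ n₀, ∃ n, N ≤ 4 * n ∧ n ≤ N ∧ (types n).Nonempty ∧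
      ∀ (k L B R : ℕ), 1 ≤ k → 1 ≤ L → 1 ≤ B →
      ∀ (Ω : Type) [Finite Ω] [Nonempty Ω] (A : Ω → Alg),
        (∀ ω, Within L B R k (2 ^ L) (A ω)) →
        (∑ a ∈ types n, prob A R a) / (types n).card ≤
          C * k ^ 2 * L * B * Real.log n / n) ∧
    (∀ n : ℕ, 2 ≤ n → ∃ A : Alg,
      Within (Nat.log 2 n + 3) (Nat.log 2 n + 3) 0 (2 * (Nat.sqrt n + 1))
        (2 ^ (Nat.log 2 n + 3)) A ∧
      ∀ g h : (ZMod 2)[X], Irreducible g → Irreducible h → g.natDegree ≠ h.natDegree →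
        g.natDegree + h.natDegree = n →
        ∀ (R : ℕ) (r : Fin R → degreeLT (ZMod 2) n), Finds (g * h) (env r) [] A) := by
  refine ⟨tradeoff, fun n hn => ?_⟩
  obtain ⟨A, h1, h2⟩ := bsgs n hn
  exact ⟨A, within_mono 0 _ _ _ (Nat.zero_le _) A _ _ _ (sq_le n hn) h1, h2⟩

end Pool.Agent.Results.MP_54838b_lc.ConjugateBarrier
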