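import Pool.Agent.OH.Main

/-!
Finding a factor of a polynomial over the field with two elements on an off-line machine with one
work head on a tape of dimension `d`, unlimited memory and random access to the input: the time
`T` satisfies `n ^ (d + 2) ≤ (300000 d T) ^ (d + 1) log |Γ| (log |V| + log n) ^ d`; for `d = 1`
(one-tape off-line Turing machines) this is `T ≥ c n ^ (3 / 2) / log n`.
-/

set_option autoImplicit false

namespace Pool.Agent.Results.MP_54838b_lc.OneHead

open Polynomial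

open Classical in
theorem result (m : ℕ) (hm : 2880 ≤ m) (d : ℕ) (hd : 1 ≤ d) (V Γ Ω : Type) [Fintype V]
    [Fintype Γ] [Fintype Ω] (hΓ : 2 ≤ Fintype.card Γ) (p : Ω → ℝ) (hp : ∀ ω, 0 ≤ p ω)
    (hp1 : ∑ ω, p ω = 1) (M : Ω → Pool.TSF.Mach V Γ d) (T : ℕ)
    (hM : ∀ g h : (ZMod 2)[X], Irreducible g → Irreducible h → g.natDegree = m →
      h.natDegree = m + 1 →
      (1 : ℝ) / (2 * m + 1) ≤ ∑ ω with (M ω).Finds (g * h) T, p ω) :
    (2 * m + 1 : ℝ) ^ (d + 2) ≤
      (300000 * d * T) ^ (d + 1) * Real.logb 2 (Fintype.card Γ) *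
        (Real.logb 2 (Fintype.card V) + Real.logb 2 (2 * m + 1)) ^ d := by
  refine Pool.TSF.oneHead m hm d hd V Γ Ω hΓ p hp hp1 M T ?_
  intro g h hg hh hgd hhd
  have h1 := hM g h hg hh hgd hhd
  rw [Finset.sum_filter] at h1
  exact h1

end Pool.Agent.Results.MP_54838b_lc.OneHead
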