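import Pool.Agent.SDF.Final

/-!
Distinct-degree factorisation over the field with two elements with few modular compositions, for
most of the degrees.
-/

set_option autoImplicit false

namespace Pool.Agent.Results.MP_54838b_lc.SmoothDegrees

open Polynomial Pool.Agent.SDF

/-- For every `δ` in `(0, 1/2)` and large `N` one program of size at most `N ^ δ` isolates, for all
polynomials `f`, all factors of `f` whose degree is in a set `G` of at least `β δ * N` of the
degrees up to `N`. -/
theorem result :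
    ∃ β : ℝ → ℝ, (∀ δ, 0 < β δ) ∧ (∀ δ, 1 - 200 * (1 / 2 - δ) ≤ β δ) ∧
      ∀ δ, 0 < δ → δ < 1 / 2 → ∃ N₀ : ℕ, ∀ N ≥ N₀, ∃ (P : Prog) (G : Finset ℕ),
        (P.size : ℝ) ≤ (N : ℝ) ^ δ ∧ G ⊆ Finset.Icc 1 N ∧ β δ * N ≤ G.card ∧
        ∀ f g h : (ZMod 2)[X], Irreducible g → Irreducible h → g ∣ f → h ∣ f →
          g.natDegree ∈ G → h.natDegree ≤ N → g.natDegree ≠ h.natDegree → P.Sep f g h :=
  final

end Pool.Agent.Results.MP_54838b_lc.SmoothDegrees
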