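import Pool.Agent.TSF.Final

/-!
A time-space tradeoff for factoring polynomials over the field with two elements: a randomised
nonuniform program with random access to the input which finds a nontrivial factor of every
product of two irreducible polynomials of degrees `m` and `m + 1`, with `n = 2 m + 1`, satisfies
`T (S + log n) ≥ n ^ 2 / 200000`, where `T` is the number of input bits read and `S` the number of
bits of memory.
-/

set_option autoImplicit false

namespace Pool.Agent.Results.MP_54838b_lc.TimeSpace

open Polynomial

open Classical in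
theorem result (m : ℕ) (hm : 2880 ≤ m) (V Ω : Type) [Fintype V] [Fintype Ω] (p : Ω → ℝ)
    (hp : ∀ ω, 0 ≤ p ω) (hp1 : ∑ ω, p ω = 1) (B : Ω → Pool.TSF.Prog V) (T : ℕ)
    (hB : ∀ g h : (ZMod 2)[X], Irreducible g → Irreducible h → g.natDegree = m →
      h.natDegree = m + 1 →
      (1 : ℝ) / (2 * m + 1) ≤ ∑ ω with (B ω).Finds (g * h) T, p ω) :
    (2 * m + 1 : ℝ) ^ 2 ≤
      200000 * T * (Real.logb 2 (Fintype.card V) + Real.logb 2 (2 * m + 1)) := by
  have h := Pool.TSF.main m hm V Ω p hp hp1 B T (by
    intro g h hg hh hgd hhd
    have h1 := hB g h hg hh hgd hhd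
    rw [Finset.sum_filter] at h1
    exact h1)
  rw [mul_assoc]
  exact h

end Pool.Agent.Results.MP_54838b_lc.TimeSpace
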